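import Pool.Agent.L5helper29.OF.Defs

/-! Irreducibility of a Lie algebra containing the diagonal operators (job OF L1b). -/

set_option autoImplicit false
set_option linter.all false

namespace Pool.Agent.L5helper67.OF

open Module Finset Pool.Agent.L5helper73.CC Pool.Agent.L5helper29.OF
open scoped Classical

section

variable {K : Type} [Field K] [CharZero K] {Y : Type} [AddCommGroup Y] [Module K Y]
  [FiniteDimensional K Y] {I : Type} [Fintype I] [DecidableEq I] {ω : Y →ₗ[K] Y →ₗ[K] K}
  {P : I → Y →ₗ[K] Y} {st : I → I} {A : I → Finset K} {q : K}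
  {b : Basis (Σ i, {x // x ∈ A i}) K Y}

lemma eq_dl (hb : EigBasis ω P st A q b) {a c : Σ i, {x // x ∈ A i}}
    (h : ω (b a) (b c) ≠ 0) : c = dl st hb.dual a := by
  obtain ⟨h1, h2⟩ := hb.orth a c h
  obtain ⟨i, x, hx⟩ := a
  obtain ⟨j, y, hy⟩ := c
  simp only at h1 h2
  subst h1
  have hy' : y = q / x := by
    rw [eq_div_iff (hb.ne_zero i x hx), mul_comm]; exact h2
  subst hy'
  rfl

lemma om_ne (hD : Dat ω P st) (hb : EigBasis ω P st A q b) (a : Σ i, {x // x ∈ A i}) :
    ω (b a) (b (dl st hb.dual a)) ≠ 0 := by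
  intro h0
  have h1 : b a = 0 := by
    apply hD.nd
    intro v
    rw [← b.sum_repr v, map_sum]
    refine Finset.sum_eq_zero fun c _ => ?_
    rw [map_smul, smul_eq_mul]
    by_cases hc : ω (b a) (b c) = 0
    · rw [hc, mul_zero]
    · exact absurd (by rw [eq_dl hb hc]; exact h0) hc
  exact b.ne_zero a h1

lemma om_ne' (hD : Dat ω P st) (hb : EigBasis ω P st A q b) (a : Σ i, {x // x ∈ A i}) :
    ω (b (dl st hb.dual a)) (b a) ≠ 0 := by
  have h := om_ne hD hb a
  rw [hD.skew] at h
  exact neg_ne_zero.1 h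

lemma dl_dl (hD : Dat ω P st) (hb : EigBasis ω P st A q b) (a : Σ i, {x // x ∈ A i}) :
    dl st hb.dual (dl st hb.dual a) = a :=
  (eq_dl hb (om_ne' hD hb a)).symm

lemma Rop_apply (x y z : Y) : Rop ω x y z = ω x z • y + ω y z • x := rfl

lemma om_zero (hb : EigBasis ω P st A q b) {a c : Σ i, {x // x ∈ A i}}
    (h : c ≠ dl st hb.dual a) : ω (b a) (b c) = 0 := by
  by_contra h0
  exact h (eq_dl hb h0)

/-- the coefficient -/
lemma co (a c : Σ i, {x // x ∈ A i}) : b.repr (b a) c = if a = c then 1 else 0 := by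
  rw [Basis.repr_self, Finsupp.single_apply]

/-- the elementary operator has a nonzero entry -/
lemma entry (hD : Dat ω P st) (hb : EigBasis ω P st A q b) {a c : Σ i, {x // x ∈ A i}}
    : b.repr (Rop ω (b c) (b (dl st hb.dual a)) (b a)) c ≠ 0 := by
  have h1 := om_ne' hD hb a
  rw [Rop_apply, map_add, map_smul, map_smul, Finsupp.add_apply, Finsupp.smul_apply,
    Finsupp.smul_apply, co, co, if_pos rfl, smul_eq_mul, smul_eq_mul, mul_one]
  by_cases h : dl st hb.dual a = c
  · rw [if_pos h, ← h, mul_one]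
    intro h2
    have h3 : (2 : K) * ω (b (dl st hb.dual a)) (b a) = 0 := by rw [two_mul]; exact h2
    exact h1 ((mul_eq_zero.1 h3).resolve_left two_ne_zero)
  · rw [if_neg h, mul_zero, zero_add]
    exact h1

lemma trans_R (hD : Dat ω P st) (hb : EigBasis ω P st A q b) (𝔥 : Submodule K (Y →ₗ[K] Y))
    (hbr : ∀ X ∈ 𝔥, ∀ X' ∈ 𝔥, X ∘ₗ X' - X' ∘ₗ X ∈ 𝔥)
    (hext : ∀ (a c : Σ i, {x // x ∈ A i}), a ≠ c → ∀ X ∈ 𝔥, b.repr (X (b a)) c ≠ 0 →
      Rop ω (b c) (b (dl st hb.dual a)) ∈ 𝔥)
    {a c d : Σ i, {x // x ∈ A i}} (hac : a ≠ c) (hcd : c ≠ d) (had : a ≠ d)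
    (h1 : Rop ω (b c) (b (dl st hb.dual a)) ∈ 𝔥) (h2 : Rop ω (b d) (b (dl st hb.dual c)) ∈ 𝔥) :
    Rop ω (b d) (b (dl st hb.dual a)) ∈ 𝔥 := by
  refine hext a d had _ (hbr _ h2 _ h1) ?_
  have inj : ∀ x y, dl st hb.dual x = dl st hb.dual y → x = y := by
    intro x y h
    rw [← dl_dl hD hb x, h, dl_dl hD hb]
  have e1 : ω (b d) (b (dl st hb.dual a)) = 0 :=
    om_zero hb fun h => had (inj _ _ h)
  have e2 : ω (b (dl st hb.dual c)) (b a) = 0 :=
    om_zero hb fun h => hac (by rw [h, dl_dl hD hb])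
  have na := om_ne' hD hb a
  have nc := om_ne' hD hb c
  have sc := hD.skew (b c) (b (dl st hb.dual c))
  have key : b.repr ((Rop ω (b d) (b (dl st hb.dual c)) ∘ₗ Rop ω (b c) (b (dl st hb.dual a)) -
      Rop ω (b c) (b (dl st hb.dual a)) ∘ₗ Rop ω (b d) (b (dl st hb.dual c))) (b a)) d =
      ω (b c) (b a) * ω (b (dl st hb.dual c)) (b (dl st hb.dual a)) +
      ω (b (dl st hb.dual a)) (b a) * (ω (b d) (b c) * (if dl st hb.dual c = d then 1 else 0) +
        ω (b (dl st hb.dual c)) (b c)) -
      ω (b d) (b a) * ω (b c) (b (dl st hb.dual c)) * (if dl st hb.dual a = d then 1 else 0) := by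
    simp only [LinearMap.sub_apply, LinearMap.comp_apply, Rop_apply, map_add, map_sub, map_smul,
      Finsupp.add_apply, Finsupp.sub_apply, Finsupp.smul_apply, co, smul_eq_mul, if_true,
      if_neg hcd, e1, e2, smul_add, smul_zero]
    ring
  rw [key]
  by_cases p : a = dl st hb.dual c
  · have p' : dl st hb.dual a = c := by rw [p, dl_dl hD hb]
    have r' : ¬ dl st hb.dual c = d := fun h => had (p.trans h)
    have s' : ¬ dl st hb.dual a = d := fun h => hcd (p'.symm.trans h)
    rw [if_neg r', if_neg s', p', ← p]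
    have h3 : ω (b a) (b c) ≠ 0 := by
      have := nc
      rwa [← p] at this
    have h4 : ω (b c) (b a) ≠ 0 := by
      rw [hD.skew]; exact neg_ne_zero.2 h3
    have h5 : ω (b c) (b a) * ω (b a) (b c) + ω (b c) (b a) * (ω (b d) (b c) * 0 + ω (b a) (b c)) -
        ω (b d) (b a) * ω (b c) (b a) * 0 = 2 * (ω (b c) (b a) * ω (b a) (b c)) := by ring
    rw [h5]
    exact mul_ne_zero two_ne_zero (mul_ne_zero h4 h3)
  · have e3 : ω (b c) (b a) = 0 := om_zero hb p
    rw [e3, zero_mul, zero_add]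
    by_cases r : dl st hb.dual c = d
    · have s' : ¬ dl st hb.dual a = d := fun h => hac (inj _ _ (h.trans r.symm))
      rw [if_pos r, if_neg s', ← r]
      have h5 : ω (b (dl st hb.dual a)) (b a) * (ω (b (dl st hb.dual c)) (b c) * 1 +
          ω (b (dl st hb.dual c)) (b c)) - ω (b (dl st hb.dual c)) (b a) *
            ω (b c) (b (dl st hb.dual c)) * 0 =
          2 * (ω (b (dl st hb.dual a)) (b a) * ω (b (dl st hb.dual c)) (b c)) := by ring
      rw [h5]
      exact mul_ne_zero two_ne_zero (mul_ne_zero na nc)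
    · rw [if_neg r]
      by_cases s : dl st hb.dual a = d
      · rw [if_pos s, ← s, sc]
        have h5 : ω (b (dl st hb.dual a)) (b a) * (ω (b (dl st hb.dual a)) (b c) * 0 +
            ω (b (dl st hb.dual c)) (b c)) - ω (b (dl st hb.dual a)) (b a) *
              -ω (b (dl st hb.dual c)) (b c) * 1 =
            2 * (ω (b (dl st hb.dual a)) (b a) * ω (b (dl st hb.dual c)) (b c)) := by ring
        rw [h5]
        exact mul_ne_zero two_ne_zero (mul_ne_zero na nc)
      · rw [if_neg s]
        have h5 : ω (b (dl st hb.dual a)) (b a) * (ω (b d) (b c) * 0 +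
            ω (b (dl st hb.dual c)) (b c)) - ω (b d) (b a) *
              ω (b c) (b (dl st hb.dual c)) * 0 =
            ω (b (dl st hb.dual a)) (b a) * ω (b (dl st hb.dual c)) (b c) := by ring
        rw [h5]
        exact mul_ne_zero na nc

/-- the projectors on the basis vectors -/
lemma P_b (hD : Dat ω P st) (hb : EigBasis ω P st A q b) (j : I) (a : Σ i, {x // x ∈ A i}) :
    P j (b a) = if j = a.1 then b a else 0 := by
  split_ifs with h
  · rw [h, hb.mem]
  · rw [← hb.mem a, hD.or j a.1 h]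

lemma good_Rop (hD : Dat ω P st) {i : I} {x y : Y} (hx : P i x = x) (hy : P (st i) y = y) :
    Good ω P (Rop ω x y) := by
  constructor
  · intro j u
    rw [Rop_apply, Rop_apply, map_add, map_smul, map_smul]
    have a1 : ω x (P j u) = ω (P (st j) x) u := by rw [hD.adj, hD.inv]
    have a2 : ω y (P j u) = ω (P (st j) y) u := by rw [hD.adj, hD.inv]
    congr 1
    · rw [a1]
      by_cases h : j = st i
      · rw [h, hD.inv, hx, hy]
      · have h' : st j ≠ i := fun h' => h (by rw [← h', hD.inv])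
        rw [← hx, hD.or _ _ h', map_zero, LinearMap.zero_apply, zero_smul, ← hy, hD.or _ _ h,
          smul_zero]
    · rw [a2]
      by_cases h : j = i
      · rw [h, hx, hy]
      · have h' : st j ≠ st i := fun h' => h (by rw [← hD.inv j, h', hD.inv])
        rw [← hy, hD.or _ _ h', map_zero, LinearMap.zero_apply, zero_smul, ← hx, hD.or _ _ h,
          smul_zero]
  · intro u v
    rw [Rop_apply, Rop_apply, map_add, map_smul, map_smul, LinearMap.add_apply,
      LinearMap.smul_apply, LinearMap.smul_apply, map_add, map_smul, map_smul,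
      hD.skew u x, hD.skew u y]
    simp only [smul_eq_mul]
    ring

lemma tr_Rop (x y : Y) (j : I) : tr P (Rop ω x y) j = ω x (P j y) + ω y (P j x) := by
  unfold tr
  have h1 : Rop ω x y ∘ₗ P j = (ω x ∘ₗ P j).smulRight y + (ω y ∘ₗ P j).smulRight x := by
    refine LinearMap.ext fun u => ?_
    simp [Rop_apply]
  rw [h1, map_add]
  simp [LinearMap.trace_smulRight]

/-- the diagonal operators -/
noncomputable def T (st : I → I) (hd : ∀ i, ∀ x ∈ A i, q / x ∈ A (st i)) (ω : Y →ₗ[K] Y →ₗ[K] K)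
    (b : Basis (Σ i, {x // x ∈ A i}) K Y) (a : Σ i, {x // x ∈ A i}) : Y →ₗ[K] Y :=
  (ω (b (dl st hd a)) (b a))⁻¹ • Rop ω (b a) (b (dl st hd a))

lemma good_smul {X : Y →ₗ[K] Y} (h : Good ω P X) (z : K) : Good ω P (z • X) := by
  constructor
  · intro i u
    rw [LinearMap.smul_apply, LinearMap.smul_apply, h.com, map_smul]
  · intro u v
    rw [LinearMap.smul_apply, LinearMap.smul_apply, map_smul, LinearMap.smul_apply, h.skew,
      map_smul, smul_neg]

lemma good_sub {X X' : Y →ₗ[K] Y} (h : Good ω P X) (h' : Good ω P X') : Good ω P (X - X') := by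
  constructor
  · intro i u
    rw [LinearMap.sub_apply, LinearMap.sub_apply, h.com, h'.com, map_sub]
  · intro u v
    rw [LinearMap.sub_apply, LinearMap.sub_apply, map_sub, LinearMap.sub_apply, h.skew, h'.skew,
      map_sub]
    ring

lemma T_b (hD : Dat ω P st) (hb : EigBasis ω P st A q b) (a z : Σ i, {x // x ∈ A i}) :
    T st hb.dual ω b a (b z) =
      ((if z = a then (1 : K) else 0) - (if z = dl st hb.dual a then 1 else 0)) • b z := by
  have n1 := om_ne' hD hb a
  have n2 := hD.skew (b a) (b (dl st hb.dual a))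
  have n3 : a ≠ dl st hb.dual a := by
    intro h
    apply n1
    rw [← h, hD.alt]
  unfold T
  rw [LinearMap.smul_apply, Rop_apply]
  by_cases h1 : z = a
  · subst h1
    rw [if_pos rfl, if_neg n3, hD.alt, zero_smul, zero_add, smul_smul, inv_mul_cancel₀ n1, sub_zero]
  · by_cases h2 : z = dl st hb.dual a
    · rw [if_neg h1, if_pos h2, h2, hD.alt, zero_smul, add_zero, n2, smul_smul, zero_sub]
      congr 1
      rw [mul_neg, inv_mul_cancel₀ n1]
    · have h3 : ω (b (dl st hb.dual a)) (b z) = 0 := om_zero hb (by rw [dl_dl hD hb]; exact h1)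
      rw [if_neg h1, if_neg h2, om_zero hb h2, h3]
      simp

lemma tr_T (hD : Dat ω P st) (hb : EigBasis ω P st A q b) (a : Σ i, {x // x ∈ A i}) (j : I) :
    tr P (T st hb.dual ω b a) j =
      (if j = a.1 then (1 : K) else 0) - (if j = st a.1 then 1 else 0) := by
  have n1 := om_ne' hD hb a
  have n2 := hD.skew (b a) (b (dl st hb.dual a))
  have h0 : tr P (T st hb.dual ω b a) j = (ω (b (dl st hb.dual a)) (b a))⁻¹ *
      tr P (Rop ω (b a) (b (dl st hb.dual a))) j := by
    unfold tr T
    rw [LinearMap.smul_comp, map_smul, smul_eq_mul]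
  rw [h0, tr_Rop, P_b hD hb, P_b hD hb]
  have h3 : (dl st hb.dual a).1 = st a.1 := rfl
  rw [h3]
  by_cases h1 : j = a.1 <;> by_cases h2 : j = st a.1
  · rw [if_pos h1, if_pos h1, if_pos h2, if_pos h2, n2]; ring
  · rw [if_pos h1, if_pos h1, if_neg h2, if_neg h2, map_zero, zero_add, inv_mul_cancel₀ n1, sub_zero]
  · rw [if_neg h1, if_neg h1, if_pos h2, if_pos h2, map_zero, add_zero, n2, mul_neg,
      inv_mul_cancel₀ n1, zero_sub]
  · rw [if_neg h1, if_neg h1, if_neg h2, if_neg h2, map_zero, map_zero]; ring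

/-- a diagonal operator separating two basis vectors of a piece -/
lemma exists_sep (hD : Dat ω P st) (hb : EigBasis ω P st A q b) {a c : Σ i, {x // x ∈ A i}}
    (h1 : a.1 = c.1) (h2 : a ≠ c) : ∃ (X : Y →ₗ[K] Y) (x : (Σ i, {x // x ∈ A i}) → K),
      Cart ω P b X ∧ (∀ z, X (b z) = x z • b z) ∧ x a ≠ x c := by
  have gT : ∀ a, Good ω P (T st hb.dual ω b a) := fun a =>
    good_smul (good_Rop hD (hb.mem a) (hb.mem (dl st hb.dual a))) _
  have hv : ∀ z, (T st hb.dual ω b a - T st hb.dual ω b c) (b z) =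
      (((if z = a then (1 : K) else 0) - (if z = dl st hb.dual a then 1 else 0)) -
        ((if z = c then (1 : K) else 0) - (if z = dl st hb.dual c then 1 else 0))) • b z := by
    intro z
    rw [LinearMap.sub_apply, T_b hD hb, T_b hD hb, ← sub_smul]
  refine ⟨T st hb.dual ω b a - T st hb.dual ω b c, _, ⟨good_sub (gT a) (gT c), fun i => ?_,
    fun z => ⟨_, hv z⟩⟩, hv, ?_⟩
  · have : tr P (T st hb.dual ω b a - T st hb.dual ω b c) i =
        tr P (T st hb.dual ω b a) i - tr P (T st hb.dual ω b c) i := by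
      unfold tr
      rw [LinearMap.sub_comp, map_sub]
    rw [this, tr_T hD hb, tr_T hD hb, h1, sub_self]
  · have na : a ≠ dl st hb.dual a := by
      intro h
      apply om_ne' hD hb a
      rw [← h, hD.alt]
    have nc : c ≠ dl st hb.dual c := by
      intro h
      apply om_ne' hD hb c
      rw [← h, hD.alt]
    by_cases h3 : a = dl st hb.dual c
    · have h4 : c = dl st hb.dual a := by rw [h3, dl_dl hD hb]
      simp only [if_pos rfl, if_neg na, if_neg h2, if_neg (Ne.symm h2), if_neg nc, if_pos h3,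
        if_pos h4]
      norm_num
    · have h4 : ¬ c = dl st hb.dual a := fun h => h3 (by rw [h, dl_dl hD hb])
      simp only [if_pos rfl, if_neg na, if_neg h2, if_neg (Ne.symm h2), if_neg nc, if_neg h3,
        if_neg h4]
      norm_num

lemma repr_diag {X : Y →ₗ[K] Y} {x : (Σ i, {x // x ∈ A i}) → K} (hX : ∀ z, X (b z) = x z • b z)
    (w : Y) (z : Σ i, {x // x ∈ A i}) : b.repr (X w) z = x z * b.repr w z := by
  have h : (b.coord z) ∘ₗ X = x z • b.coord z := by
    refine b.ext fun c => ?_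
    rw [LinearMap.comp_apply, hX, map_smul, LinearMap.smul_apply, Basis.coord_apply, co]
    by_cases hc : c = z
    · rw [hc]
    · rw [if_neg hc, smul_zero, smul_zero]
  have h2 := LinearMap.congr_fun h w
  rw [LinearMap.comp_apply, LinearMap.smul_apply, Basis.coord_apply, Basis.coord_apply,
    smul_eq_mul] at h2
  exact h2

lemma repr_piece (hD : Dat ω P st) (hb : EigBasis ω P st A q b) {i : I} {w : Y} (hw : P i w = w)
    {a : Σ i, {x // x ∈ A i}} (ha : b.repr w a ≠ 0) : a.1 = i := by
  have h := repr_diag (X := P i) (x := fun z => if i = z.1 then (1 : K) else 0) (b := b) (fun z => by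
    rw [P_b hD hb]
    split_ifs
    · rw [one_smul]
    · rw [zero_smul]) w a
  rw [hw] at h
  by_contra h1
  simp only [if_neg (Ne.symm h1), zero_mul] at h
  exact ha h

lemma coord (hD : Dat ω P st) (hb : EigBasis ω P st A q b) (i : I) (W : Submodule K Y)
    (hWP : ∀ x ∈ W, P i x = x) (hW : ∀ X, Cart ω P b X → ∀ x ∈ W, X x ∈ W) :
    ∀ n : ℕ, ∀ w ∈ W, ∀ a, b.repr w a ≠ 0 → (b.repr w).support.card ≤ n → b a ∈ W := by
  intro n
  induction n with
  | zero =>
    intro w hw a ha hn
    have h1 : a ∈ (b.repr w).support := Finsupp.mem_support_iff.2 ha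
    have h2 := Finset.card_pos.2 ⟨a, h1⟩
    omega
  | succ n ih =>
    intro w hw a ha hn
    by_cases hc : ∃ c, c ≠ a ∧ b.repr w c ≠ 0
    · obtain ⟨c, hca, hc⟩ := hc
      have p1 := repr_piece hD hb (hWP w hw) ha
      have p2 := repr_piece hD hb (hWP w hw) hc
      obtain ⟨X, x, hX, hx, hne⟩ := exists_sep hD hb (p1.trans p2.symm) (Ne.symm hca)
      have hr : ∀ z, b.repr (X w - x c • w) z = (x z - x c) * b.repr w z := by
        intro z
        rw [map_sub, map_smul, Finsupp.sub_apply, Finsupp.smul_apply, repr_diag hx, smul_eq_mul]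
        ring
      refine ih (X w - x c • w) (W.sub_mem (hW X hX w hw) (W.smul_mem _ hw)) a ?_ ?_
      · rw [hr]
        exact mul_ne_zero (sub_ne_zero.2 hne) ha
      · have hsub : (b.repr (X w - x c • w)).support ⊆ (b.repr w).support.erase c := by
          intro z hz
          rw [Finsupp.mem_support_iff, hr] at hz
          refine Finset.mem_erase.2 ⟨fun h => ?_, Finsupp.mem_support_iff.2 (right_ne_zero_of_mul hz)⟩
          rw [h, sub_self, zero_mul] at hz
          exact hz rfl
        have h1 := Finset.card_le_card hsub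
        rw [Finset.card_erase_of_mem (Finsupp.mem_support_iff.2 hc)] at h1
        omega
    · push Not at hc
      have h1 : w = b.repr w a • b a := by
        conv_lhs => rw [← b.sum_repr w]
        rw [Finset.sum_eq_single a]
        · intro c _ hca
          rw [hc c hca, zero_smul]
        · intro h
          exact absurd (Finset.mem_univ a) h
      have h2 : b a = (b.repr w a)⁻¹ • w := by
        rw [h1, map_smul, Finsupp.smul_apply, co, if_pos rfl, smul_eq_mul, mul_one, smul_smul,
          inv_mul_cancel₀ ha, one_smul]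
      rw [h2]
      exact W.smul_mem _ hw

lemma span_eq (hD : Dat ω P st) (hb : EigBasis ω P st A q b) (i : I) (W : Submodule K Y)
    (hWP : ∀ x ∈ W, P i x = x) (hW : ∀ X, Cart ω P b X → ∀ x ∈ W, X x ∈ W) :
    Submodule.span K (b '' {c | b c ∈ W}) = W := by
  apply le_antisymm
  · rw [Submodule.span_le]
    rintro _ ⟨c, hc, rfl⟩
    exact hc
  · intro w hw
    rw [Basis.mem_span_image]
    intro c hc
    exact coord hD hb i W hWP hW _ w hw c (Finsupp.mem_support_iff.1 hc) le_rfl

end

theorem irred : Pool.Agent.L5helper29.OF.St_IRRED := by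
  intro K _ _ Y _ _ _ I _ _ ω P st hD A q b hb 𝔥 hbr hgood hext Γ _ g hgP hirr Δ₀ hΔ₀ hnorm hcart
    a c hac hne
  classical
  set S : Set (Σ i, {x // x ∈ A i}) := {c | c = a ∨ (a ≠ c ∧ Rop ω (b c) (b (dl st hb.dual a)) ∈ 𝔥)}
    with hS
  set U : Submodule K Y := Submodule.span K (b '' S) with hU
  have hSp : ∀ d ∈ S, d.1 = a.1 := by
    rintro d (rfl | ⟨h1, h2⟩)
    · rfl
    · have h3 := (hgood _ h2).com a.1 (b a)
      rw [hb.mem a] at h3
      exact repr_piece hD hb h3.symm (entry hD hb)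
  have hUP : ∀ x ∈ U, P a.1 x = x := by
    intro x hx
    have hle : U ≤ LinearMap.eqLocus (P a.1) LinearMap.id := by
      rw [hU, Submodule.span_le]
      rintro _ ⟨d, hd, rfl⟩
      change P a.1 (b d) = b d
      rw [← hSp d hd, hb.mem]
    exact hle hx
  have hUh : ∀ X ∈ 𝔥, ∀ x ∈ U, X x ∈ U := by
    intro X hX x hx
    have hle : U ≤ U.comap X := by
      conv_lhs => rw [hU]
      rw [Submodule.span_le]
      rintro _ ⟨d, hd, rfl⟩
      change X (b d) ∈ U
      rw [← b.sum_repr (X (b d))]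
      refine Submodule.sum_mem _ fun e _ => ?_
      by_cases he : b.repr (X (b d)) e = 0
      · rw [he, zero_smul]; exact U.zero_mem
      · refine U.smul_mem _ (Submodule.subset_span ⟨e, ?_, rfl⟩)
        by_cases hea : e = a
        · exact Or.inl hea
        · refine Or.inr ⟨Ne.symm hea, ?_⟩
          rcases hd with rfl | ⟨h1, h2⟩
          · exact hext _ _ (Ne.symm hea) X hX he
          · by_cases hde : d = e
            · rw [← hde]; exact h2
            · exact trans_R hD hb 𝔥 hbr hext h1 hde (Ne.symm hea) h2 (hext _ _ hde X hX he)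
    exact hle hx
  -- the action
  letI act : MulAction Δ₀ (Submodule K Y) :=
    { smul := fun γ W => W.map (g γ)
      one_smul := fun W => by
        change W.map (g ((1 : Δ₀) : Γ)) = W
        rw [Subgroup.coe_one, map_one]
        exact Submodule.map_id W
      mul_smul := fun γ γ' W => by
        change W.map (g ((γ * γ' : Δ₀) : Γ)) = (W.map (g γ')).map (g γ)
        rw [Subgroup.coe_mul, map_mul, ← Submodule.map_comp]
        rfl }
  have hsm : ∀ (γ : Δ₀) (W : Submodule K Y), γ • W = W.map (g γ) := fun _ _ => rfl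
  have hfin : (MulAction.orbit Δ₀ U).Finite := by
    refine (Set.finite_range fun s : Set (Σ i, {x // x ∈ A i}) => Submodule.span K (b '' s)).subset ?_
    rintro _ ⟨γ, rfl⟩
    refine ⟨{d | b d ∈ (γ • U : Submodule K Y)}, ?_⟩
    refine span_eq hD hb a.1 _ ?_ ?_
    · intro x hx
      rw [hsm] at hx
      obtain ⟨u, hu, rfl⟩ := hx
      rw [← hgP, hUP u hu]
    · intro X hX x hx
      rw [hsm] at hx ⊢
      obtain ⟨u, hu, rfl⟩ := hx
      have h1 := hnorm (γ : Γ)⁻¹ (Δ₀.inv_mem γ.2) X (hcart X hX)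
      rw [inv_inv] at h1
      refine ⟨_, hUh _ h1 u hu, ?_⟩
      rw [LinearMap.comp_apply, LinearMap.comp_apply]
      change (g (γ : Γ) * g (γ : Γ)⁻¹) (X (g (γ : Γ) u)) = _
      rw [← map_mul, mul_inv_cancel, map_one]
      rfl
  have hidx : (MulAction.stabilizer Δ₀ U).index ≠ 0 := by
    rw [MulAction.index_stabilizer]
    have : (MulAction.orbit Δ₀ U).ncard ≠ 0 := by
      exact ((Set.ncard_pos hfin).2 ⟨U, MulAction.mem_orbit_self U⟩).ne'
    exact this
  set Δ : Subgroup Γ := (MulAction.stabilizer Δ₀ U).map Δ₀.subtype with hΔ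
  have hΔf : Δ.FiniteIndex := by
    refine ⟨?_⟩
    rw [hΔ, Subgroup.index_map_subtype]
    exact mul_ne_zero hidx hΔ₀.index_ne_zero
  rcases hirr a.1 Δ hΔf U hUP (by
    rintro γ ⟨δ, hδ, rfl⟩ x hx
    have h1 : δ • U = U := hδ
    rw [hsm] at h1
    have h2 : g (δ : Γ) x ∈ U.map (g (δ : Γ)) := ⟨x, hx, rfl⟩
    rw [h1] at h2
    exact h2) with h1 | h1
  · exfalso
    have h2 : b a ∈ U := Submodule.subset_span ⟨a, Or.inl rfl, rfl⟩
    rw [h1, Submodule.mem_bot] at h2
    exact b.ne_zero a h2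
  · have h2 : b c ∈ U := h1 (b c) (by rw [hac, hb.mem])
    rw [hU, Basis.mem_span_image] at h2
    have h3 : c ∈ S := h2 (Finsupp.mem_support_iff.2 (by rw [co, if_pos rfl]; exact one_ne_zero))
    rcases h3 with h3 | h3
    · exact absurd h3.symm hne
    · exact h3.2

end Pool.Agent.L5helper67.OF
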